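import Mathlib
import Pool.Agent.Lib_MP_3dc43d_an.Dyn

set_option autoImplicit false
open Topology Filter

namespace Pool.Agent.Results.MP_3dc43d_an.SeparableDenseLineable

open Pool.Agent.Lib_MP_3dc43d_an

/-- Let `X` be a real or complex topological vector space whose topology is completely metrizable
(for instance a Banach space), `T` a continuous linear operator on `X`, and `S` a separable set
contained in the closure of the set of uniformly recurrent vectors of `T`.  Then there is a
`T`-invariant linear subspace `M` whose closure contains `S`, which consists of uniformly recurrent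
vectors, and any finitely many vectors of which are simultaneously uniformly recurrent. -/
theorem result (𝕂 : Type*) [RCLike 𝕂] (X : Type*) [AddCommGroup X] [Module 𝕂 X]
    [TopologicalSpace X] [IsTopologicalAddGroup X] [ContinuousSMul 𝕂 X]
    [TopologicalSpace.IsCompletelyMetrizableSpace X] (T : X →L[𝕂] X)
    (S : Set X) (hS : TopologicalSpace.IsSeparable S)
    (hSU : S ⊆ closure {x : X | ∀ U ∈ 𝓝 x, ∃ N : ℕ, ∀ m : ℕ, ∃ n : ℕ,
          m ≤ n ∧ n ≤ m + N ∧ 1 ≤ n ∧ (T ^ n) x ∈ U}) :
    ∃ M : Submodule 𝕂 X, S ⊆ closure (M : Set X) ∧ (∀ x ∈ M, T x ∈ M) ∧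
      (∀ x ∈ M, ∀ U ∈ 𝓝 x, ∃ N : ℕ, ∀ m : ℕ, ∃ n : ℕ,
          m ≤ n ∧ n ≤ m + N ∧ 1 ≤ n ∧ (T ^ n) x ∈ U) ∧
      (∀ (k : ℕ) (v : Fin k → X), (∀ i, v i ∈ M) → ∀ U ∈ 𝓝 v, ∃ N : ℕ, ∀ m : ℕ, ∃ n : ℕ,
          m ≤ n ∧ n ≤ m + N ∧ 1 ≤ n ∧ (fun i => (T ^ n) (v i)) ∈ U) := by
  have hpow : ∀ (n : ℕ) (x : X), (T ^ n) x = (T : X → X)^[n] x := fun n x => by
    rw [FunLike.coe_pow_eq_iterate]
  have hlin : ∀ n : ℕ, ∃ A : X →L[𝕂] X, (T : X → X)^[n] = A := fun n =>
    ⟨T ^ n, by rw [FunLike.coe_pow_eq_iterate]⟩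
  set A : Set X := {x : X | UR (T : X → X) x} with hA
  have hAeq : {x : X | ∀ U ∈ 𝓝 x, ∃ N : ℕ, ∀ m : ℕ, ∃ n : ℕ,
          m ≤ n ∧ n ≤ m + N ∧ 1 ≤ n ∧ (T ^ n) x ∈ U} = A := by
    simp only [hpow]
    rfl
  rw [hAeq] at hSU
  -- a countable set of uniformly recurrent vectors whose closure contains `S`
  obtain ⟨C, hC, hCA, hSC⟩ : ∃ C : Set X, C.Countable ∧ C ⊆ A ∧ S ⊆ closure C := by
    obtain ⟨t, hts, htc, hst⟩ := hS.exists_countable_dense_subset
    have hseq : ∀ a ∈ t, ∃ s : ℕ → X, (∀ n, s n ∈ A) ∧ Tendsto s atTop (𝓝 a) := fun a ha =>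
      mem_closure_iff_seq_limit.1 (hSU (hts ha))
    choose! s hsA hs using hseq
    refine ⟨⋃ a ∈ t, Set.range (s a), htc.biUnion fun a _ => Set.countable_range _, ?_, ?_⟩
    · intro x hx
      simp only [Set.mem_iUnion] at hx
      obtain ⟨a, ha, n, rfl⟩ := hx
      exact hsA a ha n
    · refine hst.trans (closure_minimal ?_ isClosed_closure)
      intro a ha
      refine mem_closure_of_tendsto (hs a ha) (Eventually.of_forall fun n => ?_)
      simp only [Set.mem_iUnion]
      exact ⟨a, ha, n, rfl⟩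
  obtain ⟨M, hM⟩ := exists_isMin
  obtain ⟨p, hp, hconv⟩ := exists_common hM T.continuous hC (fun x hx => hCA hx)
  let D : Submodule 𝕂 X :=
    { carrier := {v | ∃ x, Tendsto (fun n => (T : X → X)^[n] x) p (𝓝 v)}
      add_mem' := by
        rintro a b ⟨x, hx⟩ ⟨y, hy⟩
        refine ⟨x + y, ?_⟩
        have := hx.add hy
        refine this.congr fun n => ?_
        obtain ⟨B, hB⟩ := hlin n
        rw [hB, map_add]
      zero_mem' := by
        refine ⟨0, ?_⟩
        have : (fun n => (T : X → X)^[n] (0 : X)) = fun _ => 0 := by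
          funext n
          obtain ⟨B, hB⟩ := hlin n
          rw [hB, map_zero]
        rw [this]
        exact tendsto_const_nhds
      smul_mem' := by
        rintro c a ⟨x, hx⟩
        refine ⟨c • x, ?_⟩
        have := hx.const_smul c
        refine this.congr fun n => ?_
        obtain ⟨B, hB⟩ := hlin n
        rw [hB, map_smul] }
  have hDmem : ∀ v, v ∈ D ↔ ∃ x, Tendsto (fun n => (T : X → X)^[n] x) p (𝓝 v) := fun v => Iff.rfl
  have hDinv : ∀ x ∈ D, T x ∈ D := by
    intro v hv
    rw [hDmem] at hv ⊢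
    obtain ⟨x, hx⟩ := hv
    refine ⟨T x, ?_⟩
    have := (T.continuous.tendsto v).comp hx
    refine this.congr fun n => ?_
    show T ((T : X → X)^[n] x) = (T : X → X)^[n] (T x)
    rw [← Function.iterate_succ_apply' (T : X → X), Function.iterate_succ_apply]
  refine ⟨D, ?_, hDinv, ?_, ?_⟩
  · -- density
    refine hSC.trans (closure_minimal ?_ isClosed_closure)
    intro x hx
    obtain ⟨y, hy⟩ := hconv x hx
    have h1 := mem_closure_orbit hM T.continuous (hCA hx) hp hy
    refine closure_mono ?_ h1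
    rintro _ ⟨j, rfl⟩
    have hyD : y ∈ D := ⟨x, hy⟩
    show (T : X → X)^[j] y ∈ D
    induction j with
    | zero => exact hyD
    | succ j ih =>
      rw [Function.iterate_succ_apply']
      exact hDinv _ ih
  · intro v hv
    obtain ⟨x, hx⟩ := hv
    simp only [hpow]
    exact ur_of_tendsto hM T.continuous hp hx
  · intro k v hv
    choose x hx using hv
    let F : (Fin k → X) → (Fin k → X) := fun w i => T (w i)
    have hF : Continuous F := continuous_pi fun i => T.continuous.comp (continuous_apply i)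
    have hiter : ∀ (n : ℕ) (w : Fin k → X), F^[n] w = fun i => (T : X → X)^[n] (w i) := by
      intro n
      induction n with
      | zero => intro w; rfl
      | succ n ih =>
        intro w
        rw [Function.iterate_succ_apply, ih]
        funext i
        rw [Function.iterate_succ_apply]
    have ht : Tendsto (fun n => F^[n] x) p (𝓝 v) := by
      rw [tendsto_pi_nhds]
      intro i
      refine (hx i).congr fun n => ?_
      rw [hiter]
    have := ur_of_tendsto hM hF hp ht
    unfold UR at this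
    simp only [hiter] at this
    simp only [hpow]
    exact this

end Pool.Agent.Results.MP_3dc43d_an.SeparableDenseLineable
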